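import Pool.Agent.PFE.StmtsE2b

/-! Squad PFE, row LSF (helper17): the special fibre of the local algebra. -/

set_option autoImplicit false

open scoped BigOperators

noncomputable section

namespace Pool.Agent.PFE.H17

open Pool.Agent.PFE Pool.Agent.PFD.D2

section

variable {R F A A1 X S S0 : Type} [CommRing R] [Field F] {c : Cdv R F} [Ring A] [Algebra F A]
    [Ring A1] [Algebra R A1] [Group X] [Fintype X] [Ring S] [Algebra R S]
    [Ring S0] [Algebra F S0]

theorem q_smul (fb : FibG A1 A c) (r : R) (a : A1) : fb.q (r • a) = c.κ r • fb.q a := by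
  rw [Algebra.smul_def, map_mul, fb.sc, ← Algebra.smul_def]

theorem q_Tx (fb : FibG A1 A c) (y : A1) (l : ℕ) (e : R) (a : A1) :
    fb.q (Tx y l e a) = Tx (fb.q y) l (c.κ e) (fb.q a) := by
  unfold Tx
  rw [map_sum]
  refine Finset.sum_congr rfl fun j _ => ?_
  rw [q_smul, map_mul, map_mul, map_pow, map_pow, map_pow]

theorem q_Nx (fb : FibG A1 A c) {y : A1} {y0 : A} {χ : X →* R} {χ0 : X →* F}
    (hy : fb.q y = y0) (hχ : ∀ x, c.κ (χ x) = χ0 x) {x : X} {a : A1} (ha : a ∈ Nx y χ x) :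
    fb.q a ∈ Nx y0 χ0 x := by
  have h : y * a = χ x • (a * y) := ha
  show y0 * fb.q a = χ0 x • (fb.q a * y0)
  rw [← hy, ← map_mul, h, q_smul, map_mul, hχ]

/-- reduction -/
def red (fb : FibG A1 A c) {y : A1} {y0 : A} {χ : X →* R} {χ0 : X →* F}
    (hy : fb.q y = y0) (hχ : ∀ x, c.κ (χ x) = χ0 x) (x : X) : Nx y χ x →+ Nx y0 χ0 x where
  toFun a := ⟨fb.q (a : A1), q_Nx fb hy hχ a.2⟩
  map_zero' := by
    apply Subtype.ext
    show fb.q ((0 : Nx y χ x) : A1) = 0
    rw [ZeroMemClass.coe_zero, map_zero]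
  map_add' a b := by
    apply Subtype.ext
    show fb.q ((a + b : Nx y χ x) : A1) = fb.q (a : A1) + fb.q (b : A1)
    rw [← map_add]
    rfl

theorem smul_reg (c : Cdv R F) [Module.Free R A1] (a : A1) (h : c.π • a = 0) : a = 0 := by
  have b := Module.Free.chooseBasis R A1
  apply b.repr.injective
  rw [map_zero]
  ext i
  apply c.reg
  have h1 : b.repr (c.π • a) i = 0 := by rw [h, map_zero]; rfl
  rw [map_smul] at h1
  exact h1

end

theorem lsf (htxa : TxaStmt) : LsfStmt := by
  intro R F A A1 X S S0 _ _ c _ _ _ _ _ _ _ _ _ _ _ fb y y0 l χ χ0 L L0 hl hyl hy hχ hχl hlift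
  obtain ⟨-, -, t3, t4, -⟩ := htxa R A1 X y l χ hl hyl hχl
  have hyl0 : y0 ^ l = 0 := by rw [← hy, ← map_pow, hyl, map_zero]
  have hχl0 : ∀ x, χ0 x ^ (l - 1) = 1 := by
    intro x
    rw [← hχ, ← map_pow, hχl, map_one]
  obtain ⟨-, -, u3, -, -⟩ := htxa F A X y0 l χ0 hl hyl0 hχl0
  -- reduction of `Jx`
  have hJ : ∀ x a, a ∈ Jx y l χ x → fb.q a ∈ Jx y0 l χ0 x := by
    intro x a ha
    obtain ⟨a', n, hn, rfl⟩ := (t3 x a).1 ha
    rw [map_add, q_Tx, map_mul, hy, hχ]
    exact (u3 x _).2 ⟨fb.q a', fb.q n, q_Nx fb hy hχ hn, rfl⟩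
  let rd := fun x => red fb hy hχ x
  have hrd : ∀ x a, ((rd x a : Nx y0 χ0 x) : A) = fb.q (a : A1) := fun x a => rfl
  have hK : ∀ x (a a' : Nx y χ x), L.p x a = L.p x a' → L0.p x (rd x a) = L0.p x (rd x a') := by
    intro x a a' h
    rw [← sub_eq_zero, ← map_sub, ← map_sub]
    rw [L0.ker]
    apply hJ
    rw [← L.ker, map_sub, h, sub_self]
  choose rep hrep using L.ps
  let h : X → S → S0 := fun x s => L0.p x (rd x (rep x s))
  have hh : ∀ x s a, L.p x a = L.c x s → h x s = L0.p x (rd x a) := by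
    intro x s a ha
    exact hK x _ _ (by rw [hrep, ha])
  have hadd : ∀ x s s', h x (s + s') = h x s + h x s' := by
    intro x s s'
    rw [hh x (s + s') (rep x s + rep x s') (by rw [map_add, map_add, hrep, hrep]), map_add, map_add]
  let qq : S →+ S0 := AddMonoidHom.mk' (fun s => ∑ x, h x s) (by
    intro s s'
    rw [← Finset.sum_add_distrib]
    exact Finset.sum_congr rfl fun x _ => hadd x s s')
  have hqq : ∀ s, qq s = ∑ x, h x s := fun s => rfl
  have hp : ∀ z (a : Nx y χ z), qq (L.p z a) = L0.p z (rd z a) := by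
    intro z a
    rw [hqq, Finset.sum_eq_single z]
    · exact hh z _ a (by rw [L.pc])
    · intro x _ hx
      rw [hh x _ 0 (by rw [map_zero, ← L.pc z a, L.co x z _ hx]), map_zero, map_zero]
    · intro h; exact absurd (Finset.mem_univ z) h
  have hqc : ∀ x s, qq (L.c x s) = h x s := by
    intro x s
    rw [← hrep x s, hp]
  have hmul : ∀ s s', qq (s * s') = qq s * qq s' := by
    intro s s'
    have e1 : s * s' = ∑ z, ∑ w, L.c z s * L.c w s' := by
      conv_lhs => rw [← L.cs s, ← L.cs s', Finset.sum_mul_sum]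
    rw [e1, map_sum, hqq s, hqq s', Finset.sum_mul_sum]
    refine Finset.sum_congr rfl fun z _ => ?_
    rw [map_sum]
    refine Finset.sum_congr rfl fun w _ => ?_
    rw [← hrep z s, ← hrep w s', L.mul, hp]
    show _ = L0.p z (rd z (rep z s)) * L0.p w (rd w (rep w s'))
    rw [L0.mul]
    congr 1
    apply Subtype.ext
    show fb.q ((rep z s : A1) * (rep w s' : A1)) = fb.q (rep z s : A1) * fb.q (rep w s' : A1)
    rw [map_mul]
  have hone : qq 1 = 1 := by
    rw [← L.one, hp, ← L0.one]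
    congr 1
    apply Subtype.ext
    show fb.q (1 : A1) = 1
    rw [map_one]
  let Q : S →+* S0 :=
    { qq with
      map_one' := hone
      map_mul' := hmul }
  have hQ : ∀ s, Q s = qq s := fun s => rfl
  have hsc : ∀ r : R, Q (algebraMap R S r) = algebraMap F S0 (c.κ r) := by
    intro r
    rw [hQ, Algebra.algebraMap_eq_smul_one, Algebra.algebraMap_eq_smul_one, ← L.one, ← map_smul, hp,
      ← L0.one, ← map_smul]
    congr 1
    apply Subtype.ext
    show fb.q (r • (1 : A1)) = c.κ r • (1 : A)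
    rw [q_smul, map_one]
  have hcq : ∀ x s, L0.c x (qq s) = h x s := by
    intro x s
    rw [hqq, map_sum, Finset.sum_eq_single x]
    · show L0.c x (L0.p x _) = _
      rw [L0.pc]
    · intro z _ hz
      show L0.c x (L0.p z _) = 0
      rw [← L0.pc z, L0.co x z _ (Ne.symm hz)]
    · intro h; exact absurd (Finset.mem_univ x) h
  have hsurj : Function.Surjective Q := by
    intro s0
    have h1 : ∀ x, ∃ s, Q s = L0.c x s0 := by
      intro x
      obtain ⟨a0, ha0⟩ := L0.ps x s0
      obtain ⟨a, ha, hqa⟩ := hlift x (a0 : A) a0.2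
      refine ⟨L.p x ⟨a, ha⟩, ?_⟩
      rw [hQ, hp, ← ha0]
      congr 1
      exact Subtype.ext hqa
    choose g hg using h1
    refine ⟨∑ x, g x, ?_⟩
    rw [map_sum]
    conv_rhs => rw [← L0.cs s0]
    exact Finset.sum_congr rfl fun x _ => hg x
  have hker : ∀ s, Q s = 0 → ∃ t, s = c.π • t := by
    intro s hs
    have h1 : ∀ x, ∃ t, L.c x s = c.π • t := by
      intro x
      have h2 : L0.p x (rd x (rep x s)) = 0 := by
        have := hcq x s
        rw [← hQ, hs, map_zero] at this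
        exact this.symm
      rw [L0.ker, hrd, u3] at h2
      obtain ⟨b0, n0, hn0, he⟩ := h2
      obtain ⟨b, hb⟩ := fb.surj b0
      obtain ⟨n, hn, hqn⟩ := hlift x n0 hn0
      have h3 : fb.q ((rep x s : A1) - (Tx y l (χ x) b + y * n)) = 0 := by
        rw [map_sub, he, map_add, q_Tx, map_mul, hy, hχ, hb, hqn, sub_self]
      obtain ⟨a', ha'⟩ := fb.ker _ h3
      have hJm : Tx y l (χ x) b + y * n ∈ Jx y l χ x := (t3 x _).2 ⟨b, n, hn, rfl⟩
      have hmem : c.π • a' ∈ Nx y χ x := by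
        rw [← ha']
        exact Submodule.sub_mem _ (rep x s).2 (t4 x _ hJm)
      have hmem' : a' ∈ Nx y χ x := by
        have h4 : y * (c.π • a') = χ x • (c.π • a' * y) := hmem
        show y * a' = χ x • (a' * y)
        rw [← sub_eq_zero]
        apply smul_reg c
        rw [smul_sub, ← mul_smul_comm, h4, smul_comm c.π (χ x), smul_mul_assoc, sub_self]
      refine ⟨L.p x ⟨a', hmem'⟩, ?_⟩
      rw [← hrep x s, ← map_smul, ← sub_eq_zero, ← map_sub, L.ker]
      have h5 : ((rep x s - c.π • ⟨a', hmem'⟩ : Nx y χ x) : A1) = Tx y l (χ x) b + y * n := by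
        show (rep x s : A1) - c.π • a' = _
        rw [← ha']
        abel
      rw [h5]
      exact hJm
    choose t ht using h1
    refine ⟨∑ x, t x, ?_⟩
    rw [Finset.smul_sum]
    conv_lhs => rw [← L.cs s]
    exact Finset.sum_congr rfl fun x _ => ht x
  refine ⟨⟨Q, hsc, hsurj, hker⟩, ?_, ?_⟩
  · intro x a a0 ha0
    show qq (L.p x a) = L0.p x a0
    rw [hp]
    congr 1
    exact Subtype.ext (by rw [hrd, ha0])
  · intro x s
    show qq (L.c x s) = L0.c x (qq s)
    rw [hqc, hcq]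

end Pool.Agent.PFE.H17
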