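import Pool.Agent.PFE.StmtsS

open scoped BigOperators TensorProduct

noncomputable section

namespace Pool.Agent.PFE.H17

open Pool.Agent.PFC Pool.Agent.PFE Pool.Agent.PFE.S

section loc

variable {F V V1 : Type} [Field F] [CommGroup V] [CommGroup V1] [Fintype V1]

lemma tj_ap {A : Type} [Ring A] [Algebra F A] (α : V →* A) (i : V1 →* V) (σ : MulAut V1)
    (v : V1) (a : A) : tj F α i σ v a = α (i v) * (a * α (i (σ v))⁻¹) := rfl

lemma cj_ap {A : Type} [Ring A] [Algebra F A] (α : V →* A) (v : V) (a : A) :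
    cj F α v a = α v * (a * α v⁻¹) := rfl

lemma al_inv {A : Type} [Ring A] (α : V →* A) (v : V) : α v * α v⁻¹ = 1 := by
  rw [← map_mul, mul_inv_cancel, map_one]

lemma al_inv' {A : Type} [Ring A] (α : V →* A) (v : V) : α v⁻¹ * α v = 1 := by
  rw [← map_mul, inv_mul_cancel, map_one]

lemma uv {A : Type} [Ring A] (α : V →* A) (i : V1 →* V) (σ : MulAut V1) (u : Aˣ)
    (hu : ∀ v : V1, α (i v) * u = u * α (i (σ v))) (v : V1) :
    α (i (σ v))⁻¹ * (u⁻¹ : Aˣ) = (u⁻¹ : Aˣ) * α (i v)⁻¹ := by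
  have h1 : α (i (σ v)) * ((u⁻¹ : Aˣ) : A) = 0 + α (i (σ v)) * ((u⁻¹ : Aˣ) : A) := by simp
  have h2 : ((u⁻¹ : Aˣ) : A) * α (i v) = α (i (σ v)) * ((u⁻¹ : Aˣ) : A) := by
    calc ((u⁻¹ : Aˣ) : A) * α (i v)
        = ((u⁻¹ : Aˣ) : A) * (α (i v) * u) * ((u⁻¹ : Aˣ) : A) := by
          rw [mul_assoc, mul_assoc, Units.mul_inv, mul_one]
      _ = ((u⁻¹ : Aˣ) : A) * (u * α (i (σ v))) * ((u⁻¹ : Aˣ) : A) := by rw [hu]
      _ = α (i (σ v)) * ((u⁻¹ : Aˣ) : A) := by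
          rw [← mul_assoc ((u⁻¹ : Aˣ) : A), Units.inv_mul, one_mul]
  calc α (i (σ v))⁻¹ * ((u⁻¹ : Aˣ) : A)
      = α (i (σ v))⁻¹ * (((u⁻¹ : Aˣ) : A) * α (i v)) * α (i v)⁻¹ := by
        rw [mul_assoc, mul_assoc, al_inv, mul_one]
    _ = α (i (σ v))⁻¹ * (α (i (σ v)) * ((u⁻¹ : Aˣ) : A)) * α (i v)⁻¹ := by rw [h2]
    _ = ((u⁻¹ : Aˣ) : A) * α (i v)⁻¹ := by
        rw [← mul_assoc (α (i (σ v))⁻¹), al_inv', one_mul]

lemma tr1 {A : Type} [Ring A] [Algebra F A] (α : V →* A) (i : V1 →* V) (σ : MulAut V1) (u : Aˣ)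
    (hu : ∀ v : V1, α (i v) * u = u * α (i (σ v))) (v : V1) (a : A) :
    tj F α i σ v a * (u⁻¹ : Aˣ) = cj F α (i v) (a * (u⁻¹ : Aˣ)) := by
  rw [tj_ap, cj_ap, mul_assoc, mul_assoc, uv α i σ u hu, ← mul_assoc a]

lemma tr2 {A : Type} [Ring A] [Algebra F A] (α : V →* A) (i : V1 →* V) (σ : MulAut V1) (u : Aˣ)
    (hu : ∀ v : V1, α (i v) * u = u * α (i (σ v))) (v : V1) (a : A) :
    tj F α i σ v a = cj F α (i v) (a * (u⁻¹ : Aˣ)) * u := by
  rw [← tr1 α i σ u hu, mul_assoc, Units.inv_mul, mul_one]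

end loc

section mn

variable {F V V1 : Type} [Field F] [CommGroup V] [CommGroup V1] [Fintype V1] {N B : IA F V}
  {β : N.A →ₗ[F] B.A} {s : B.A →ₗ[F] N.A} {i : V1 →* V}

/-- `β (a u⁻¹) w'` -/
def be (β : N.A →ₗ[F] B.A) (u : N.Aˣ) (w' : B.A) : N.A →ₗ[F] B.A :=
  (LinearMap.mulRight F w').comp (β.comp (LinearMap.mulRight F ((u⁻¹ : N.Aˣ) : N.A)))

/-- `s (b w) u` -/
def se (s : B.A →ₗ[F] N.A) (u : N.Aˣ) (w : B.A) : B.A →ₗ[F] N.A :=
  (LinearMap.mulRight F (u : N.A)).comp (s.comp (LinearMap.mulRight F w))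

/-- `h (a u⁻¹) u` -/
def he (h : N.A →ₗ[F] N.A) (u : N.Aˣ) : N.A →ₗ[F] N.A :=
  (LinearMap.mulRight F (u : N.A)).comp (h.comp (LinearMap.mulRight F ((u⁻¹ : N.Aˣ) : N.A)))

lemma be_ap (β : N.A →ₗ[F] B.A) (u : N.Aˣ) (w' : B.A) (a : N.A) :
    be β u w' a = β (a * (u⁻¹ : N.Aˣ)) * w' := rfl
lemma se_ap (s : B.A →ₗ[F] N.A) (u : N.Aˣ) (w : B.A) (b : B.A) :
    se s u w b = s (b * w) * u := rfl
lemma he_ap (h : N.A →ₗ[F] N.A) (u : N.Aˣ) (a : N.A) :
    he h u a = h (a * (u⁻¹ : N.Aˣ)) * u := rfl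

lemma be_cj (hA : ABr N B i.range β s) (v : V1) (x : N.A) : β (cj F N.ι (i v) x) = β x := by
  rw [hA.eb, hA.tr (i v) ⟨v, rfl⟩]

lemma s_cj (hA : ABr N B i.range β s) (v : V1) (b : B.A) : cj F N.ι (i v) (s b) = s b := by
  rw [← hA.es, hA.tr (i v) ⟨v, rfl⟩]

lemma bs' (hA : ABr N B i.range β s) (u : N.Aˣ) (w w' : B.A) (hw : w * w' = 1) (b : B.A) :
    be β u w' (se s u w b) = b := by
  rw [be_ap, se_ap, mul_assoc, Units.mul_inv, mul_one, hA.bs, mul_assoc, hw, mul_one]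

lemma eb' (hA : ABr N B i.range β s) (u : N.Aˣ) (σ : MulAut V1)
    (hu : ∀ v : V1, N.ι (i v) * u = u * N.ι (i (σ v))) (w' : B.A) (v : V1) (a : N.A) :
    be β u w' (tj F N.ι i σ v a) = be β u w' a := by
  rw [be_ap, be_ap, tr1 N.ι i σ u hu, be_cj hA]

lemma fs' (hA : ABr N B i.range β s) (u : N.Aˣ) (σ : MulAut V1)
    (hu : ∀ v : V1, N.ι (i v) * u = u * N.ι (i (σ v))) (w : B.A) (b : B.A) :
    se s u w b ∈ Nt F N.ι i σ := by
  intro v _
  rw [tr2 N.ι i σ u hu, se_ap, mul_assoc, Units.mul_inv, mul_one, s_cj hA]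

lemma hg' (u : N.Aˣ) (σ : MulAut V1)
    (hu : ∀ v : V1, N.ι (i v) * u = u * N.ι (i (σ v))) (w w' : B.A) (hw : w' * w = 1)
    (h : N.A →ₗ[F] N.A)
    (hh : ∀ m, m - s (β m) = ∑ v : V1, cj F N.ι (i v) (h (cj F N.ι (i v)⁻¹ m))) (a : N.A) :
    a - se s u w (be β u w' a) =
      ∑ v, tj F N.ι i σ v (he h u (tj F N.ι i σ v⁻¹ a)) := by
  have h1 : a - se s u w (be β u w' a) =
      (a * ((u⁻¹ : N.Aˣ) : N.A) - s (β (a * ((u⁻¹ : N.Aˣ) : N.A)))) * u := by
    rw [se_ap, be_ap, mul_assoc, hw, mul_one, sub_mul, mul_assoc, Units.inv_mul, mul_one]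
  rw [h1, hh, Finset.sum_mul]
  refine Finset.sum_congr rfl fun v _ => ?_
  rw [tr2 N.ι i σ u hu, he_ap, tr1 N.ι i σ u hu, mul_assoc (h _), Units.mul_inv, mul_one,
    i.map_inv v]

end mn

/-- central elements of a matrix algebra -/
lemma cen {F V : Type} [Field F] [CommGroup V] {B : IA F V} (hB : Mx B) (z : B.A)
    (hz : ∀ b, z * b = b * z) : ∃ r : F, z = algebraMap F B.A r := by
  obtain ⟨n, hn, ⟨e⟩⟩ := hB
  haveI : Nonempty (Fin n) := ⟨⟨0, hn⟩⟩
  have h1 : e z ∈ Subalgebra.center F (Matrix (Fin n) (Fin n) F) := by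
    rw [Subalgebra.mem_center_iff]
    intro b
    have := congrArg e (hz (e.symm b))
    rw [map_mul, map_mul, AlgEquiv.apply_symm_apply] at this
    exact this.symm
  rw [Algebra.IsCentral.center_eq_bot, Algebra.mem_bot] at h1
  obtain ⟨r, hr⟩ := h1
  refine ⟨r, ?_⟩
  apply e.injective
  rw [← hr, AlgEquiv.commutes]

theorem tbn : TbnStmt := by
  intro hT hP hQ hU ℓ _ F V V1 C _ _ _ _ _ _ _ _ _ _ N B i θ hV hc hi hB hBQ hσ
  obtain ⟨β, s, hA⟩ := hBQ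
  obtain ⟨t1, t2, t3, t4, t5, t6, t7⟩ := hT.1 F V V1 N.A N.ι i
  -- the generator
  obtain ⟨c0, hc0⟩ := IsCyclic.exists_generator (α := C)
  have hm : 0 < Nat.card C := Nat.card_pos
  have hcm : c0 ^ Nat.card C = 1 := pow_card_eq_one'
  obtain ⟨σ, hRz, hσi⟩ := hσ c0
  have hτm : (θ c0) ^ Nat.card C = 1 := by rw [← map_pow, hcm, map_one]
  obtain ⟨g, t, hg, ht, hcomm, htm, hunit⟩ :=
    hU hT hP hQ ℓ F V V1 N B i β s (θ c0) (Nat.card C) σ hV hc hi hB hA hm hτm hRz hσi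
  obtain ⟨h, hh0⟩ := (hP ℓ F V V1 N.A (cj F N.ι) i hc hi).2.1 _ hA.hg
  have hh : ∀ m, m - s (β m) = ∑ v : V1, cj F N.ι (i v) (h (cj F N.ι (i v)⁻¹ m)) := by
    intro m
    rw [← hh0 m]
    rfl
  -- powers of g
  have hgk : ∀ (k : ℕ) (v : V1), N.ι (i v) * ((g ^ k : N.Aˣ) : N.A) =
      ((g ^ k : N.Aˣ) : N.A) * N.ι (i (((θ c0) ^ k) v)) := by
    intro k
    induction k with
    | zero => intro v; simp
    | succ k ih =>
      intro v
      rw [pow_succ, Units.val_mul, ← mul_assoc, ih, mul_assoc, hg, hσi, ← mul_assoc, pow_succ']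
      rfl
  -- powers of t
  have htk : ∀ k : ℕ, t ^ k ∈ Nt F N.ι i ((θ c0) ^ k) := by
    intro k
    induction k with
    | zero => rw [pow_zero, pow_zero]; exact t3
    | succ k ih =>
      rw [pow_succ, pow_succ']
      exact t2 _ _ _ _ ht ih
  have hex : ∀ c : C, ∃ k : ℕ, c0 ^ k = c ∧ (c = 1 → k = 0) := by
    intro c
    by_cases hc1 : c = 1
    · exact ⟨0, by rw [pow_zero, hc1], fun _ => rfl⟩
    · obtain ⟨k, hk⟩ := (mem_powers_iff_mem_zpowers (x := c0) (y := c)).2 (hc0 c)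
      exact ⟨k, hk, fun h => absurd h hc1⟩
  choose k hk hk1 using hex
  have hθk : ∀ c, (θ c0) ^ (k c) = θ c := by
    intro c
    rw [← map_pow, hk]
  -- the units
  have hW : ∀ c : C, ∃ w' : B.A, β (t ^ (k c) * ((g⁻¹ : N.Aˣ) : N.A) ^ (k c)) * w' = 1 ∧
      w' * β (t ^ (k c) * ((g⁻¹ : N.Aˣ) : N.A) ^ (k c)) = 1 := by
    intro c
    obtain ⟨w, hw⟩ := hunit (k c)
    exact ⟨((w⁻¹ : B.Aˣ) : B.A), by rw [← hw, Units.mul_inv], by rw [← hw, Units.inv_mul]⟩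
  choose w' hw1 hw2 using hW
  have hgi : ∀ n : ℕ, (((g ^ n)⁻¹ : N.Aˣ) : N.A) = ((g⁻¹ : N.Aˣ) : N.A) ^ n := by
    intro n
    rw [← inv_pow, Units.val_pow_eq_pow_val]
  set W : C → B.A := fun c => β (t ^ (k c) * ((g⁻¹ : N.Aˣ) : N.A) ^ (k c)) with hWdef
  have hu : ∀ (c : C) (v : V1), N.ι (i v) * ((g ^ (k c) : N.Aˣ) : N.A) =
      ((g ^ (k c) : N.Aˣ) : N.A) * N.ι (i (θ c v)) := by
    intro c v
    rw [hgk, hθk]
  -- fixed points
  have hfix : ∀ x : N.A, x ∈ Nt F N.ι i 1 ↔ x ∈ Fx (cj F N.ι) i.range := by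
    intro x
    constructor
    · rintro hx q ⟨v, rfl⟩
      exact hx v trivial
    · intro hx v _
      exact hx (i v) ⟨v, rfl⟩
  have hβ1 : β 1 = 1 := by
    have := hA.cov 1
    rwa [N.ι.map_one, B.ι.map_one] at this
  -- traces are killed
  have hkill : ∀ (c : C) (m : N.A), be β (g ^ (k c)) (w' c) (Tr F N.ι i (θ c) m) = 0 := by
    intro c m
    have h1 : Tr F N.ι i (θ c) m = ∑ v : V1, tj F N.ι i (θ c) v m := by
      simp [Tr]
    rw [h1, map_sum, Finset.sum_congr rfl fun v _ => eb' hA (g ^ (k c)) (θ c) (hu c) (w' c) v m,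
      Finset.sum_const, Finset.card_univ, ← Nat.card_eq_fintype_card, hc]
    have h2 : (ℓ : F) = 0 := CharP.cast_eq_zero F ℓ
    rw [← Nat.cast_smul_eq_nsmul F, h2, zero_smul]
  -- kernel elements are traces, general twist
  have hker : ∀ (n : ℕ) (a : N.A), a ∈ Nt F N.ι i ((θ c0) ^ n) →
      β (a * ((g⁻¹ : N.Aˣ) : N.A) ^ n) = 0 → ∃ y, a = Tr F N.ι i ((θ c0) ^ n) y := by
    intro n a ha h0
    have h1 := hg' (s := s) (β := β) (g ^ n) ((θ c0) ^ n) (hgk n) 1 1 (one_mul 1) h hh a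
    rw [be_ap, hgi, h0, zero_mul, map_zero, sub_zero] at h1
    refine ⟨he h (g ^ n) a, ?_⟩
    rw [h1]
    have h2 : Tr F N.ι i ((θ c0) ^ n) (he h (g ^ n) a) =
        ∑ v : V1, tj F N.ι i ((θ c0) ^ n) v (he h (g ^ n) a) := by
      simp [Tr]
    conv_rhs => rw [← h1]
    rw [h2]
    refine Finset.sum_congr rfl fun v _ => ?_
    rw [ha v⁻¹ trivial]
  have hTr0 : ∀ σ : MulAut V1, Tr F N.ι i σ 0 = 0 := fun σ => map_zero _
  -- commutators
  have hcom : ∀ (n : ℕ) (x : N.A), x ∈ Nt F N.ι i 1 →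
      ∃ y, t ^ n * x - x * t ^ n = Tr F N.ι i ((θ c0) ^ n) y := by
    intro n x hx
    induction n with
    | zero => exact ⟨0, by rw [hTr0]; simp⟩
    | succ n ih =>
      obtain ⟨y, hy⟩ := ih
      obtain ⟨y1, hy1⟩ : ∃ y1, t * x - x * t = Tr F N.ι i (θ c0) y1 := by
        have := hker 1 (t * x - x * t) (by
          rw [pow_one]
          refine Submodule.sub_mem _ ?_ ?_
          · have := t2 _ _ _ _ ht hx
            rwa [one_mul] at this
          · have := t2 _ _ _ _ hx ht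
            rwa [mul_one] at this) (by rw [pow_one]; exact hcomm x hx)
        rwa [pow_one] at this
      refine ⟨t * y + y1 * t ^ n, ?_⟩
      have e1 : t ^ (n + 1) * x - x * t ^ (n + 1) =
          t * (t ^ n * x - x * t ^ n) + (t * x - x * t) * t ^ n := by
        rw [pow_succ']
        noncomm_ring
      rw [e1, hy, hy1, t6 _ _ _ _ ht, t7 _ _ _ _ (htk n), map_add, pow_succ]
  -- powers of t modulo the order
  have hper : ∀ (n j : ℕ), ∃ y, t ^ (n + Nat.card C * j) - t ^ n =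
      Tr F N.ι i ((θ c0) ^ n) y := by
    intro n j
    have hb : β (t ^ Nat.card C - 1) = 0 := by rw [map_sub, htm, hβ1, sub_self]
    have hin : t ^ Nat.card C - 1 ∈ Nt F N.ι i ((θ c0) ^ 0) := by
      rw [pow_zero]
      refine Submodule.sub_mem _ ?_ t3
      have := htk (Nat.card C)
      rwa [hτm] at this
    obtain ⟨z, hz⟩ := hker 0 _ hin (by rw [pow_zero, mul_one]; exact hb)
    rw [pow_zero] at hz
    induction j with
    | zero => exact ⟨0, by rw [hTr0]; simp⟩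
    | succ j ih =>
      obtain ⟨y, hy⟩ := ih
      refine ⟨t ^ (n + Nat.card C * j) * z + y, ?_⟩
      have e1 : t ^ (n + Nat.card C * (j + 1)) - t ^ n =
          t ^ (n + Nat.card C * j) * (t ^ Nat.card C - 1) +
            (t ^ (n + Nat.card C * j) - t ^ n) := by
        have : n + Nat.card C * (j + 1) = (n + Nat.card C * j) + Nat.card C := by ring
        rw [this, pow_add t (n + Nat.card C * j)]
        noncomm_ring
      have e2 : (θ c0) ^ (n + Nat.card C * j) = (θ c0) ^ n := by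
        rw [pow_add, pow_mul, hτm, one_pow, mul_one]
      have e3 := htk (n + Nat.card C * j)
      rw [e2] at e3
      rw [e1, hy, hz, t6 _ _ _ _ e3, one_mul, map_add]
  have hmod : ∀ (a : ℕ), ∃ y, t ^ a - t ^ (a % Nat.card C) =
      Tr F N.ι i ((θ c0) ^ (a % Nat.card C)) y := by
    intro a
    have := hper (a % Nat.card C) (a / Nat.card C)
    rwa [Nat.mod_add_div] at this
  have hord : orderOf c0 = Nat.card C := orderOf_eq_card_of_forall_mem_zpowers hc0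
  have hmod2 : ∀ (a : ℕ) (c : C), c0 ^ a = c → ∃ y, t ^ a - t ^ (k c) =
      Tr F N.ι i (θ c) y := by
    intro a c hac
    have h1 : a % Nat.card C = k c % Nat.card C := by
      rw [← hord]
      exact pow_eq_pow_iff_modEq.1 (hac.trans (hk c).symm)
    have h2 : (θ c0) ^ (a % Nat.card C) = θ c := by
      rw [← map_pow, ← hord, pow_mod_orderOf, hac]
    obtain ⟨y, hy⟩ := hmod a
    obtain ⟨z, hz⟩ := hmod (k c)
    rw [← h1] at hz
    rw [h2] at hy hz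
    refine ⟨y - z, ?_⟩
    rw [map_sub, ← hy, ← hz]
    abel
  -- the value on `x t_c`
  have hval : ∀ (c : C) (x : N.A), x ∈ Nt F N.ι i 1 →
      be β (g ^ (k c)) (w' c) (x * t ^ (k c)) = β x := by
    intro c x hx
    have h1 : t ^ (k c) * ((g⁻¹ : N.Aˣ) : N.A) ^ (k c) ∈ Fx (cj F N.ι) i.range := by
      rintro q ⟨v, rfl⟩
      have e1 := tr1 (F := F) N.ι i (θ c) (g ^ (k c)) (hu c) v (t ^ (k c))
      have e2 := htk (k c)
      rw [hθk] at e2
      rw [e2 v trivial, hgi] at e1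
      exact e1.symm
    rw [be_ap, hgi, mul_assoc, hA.mul x ((hfix x).1 hx) _ h1, mul_assoc, hw1, mul_one]
  have hsf : ∀ b, s b ∈ Nt F N.ι i 1 := by
    intro b
    rw [hfix]
    rintro q ⟨v, rfl⟩
    exact s_cj hA v b
  -- decomposition
  have hdec : ∀ (c : C) (a : N.A), a ∈ Nt F N.ι i (θ c) →
      ∃ y, a = s (be β (g ^ (k c)) (w' c) a) * t ^ (k c) + Tr F N.ι i (θ c) y := by
    intro c a ha
    have htc : t ^ (k c) ∈ Nt F N.ι i (θ c) := by
      have := htk (k c)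
      rwa [hθk] at this
    have h1 : s (be β (g ^ (k c)) (w' c) a) * t ^ (k c) ∈ Nt F N.ι i (θ c) := by
      have := t2 _ _ _ _ (hsf (be β (g ^ (k c)) (w' c) a)) htc
      rwa [mul_one] at this
    have h2 : be β (g ^ (k c)) (w' c) (a - s (be β (g ^ (k c)) (w' c) a) * t ^ (k c)) = 0 := by
      rw [map_sub, hval c _ (hsf _), hA.bs, sub_self]
    have h3 : β ((a - s (be β (g ^ (k c)) (w' c) a) * t ^ (k c)) *
        ((g⁻¹ : N.Aˣ) : N.A) ^ (k c)) = 0 := by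
      rw [be_ap, hgi] at h2
      have := congrArg (fun z => z * W c) h2
      simp only [zero_mul] at this
      rw [mul_assoc, hw2, mul_one] at this
      exact this
    obtain ⟨y, hy⟩ := hker (k c) _ (by rw [hθk]; exact Submodule.sub_mem _ ha h1) h3
    rw [hθk] at hy
    exact ⟨y, by rw [← hy]; abel⟩
  refine ⟨fun c => be β (g ^ (k c)) (w' c), fun c => se s (g ^ (k c)) (W c),
    fun c => he h (g ^ (k c)), ?_, ?_, ?_, ?_, ?_, ?_, ?_⟩
  · intro c b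
    exact bs' hA _ _ _ (hw1 c) b
  · intro c v a
    exact eb' hA _ _ (hu c) _ v a
  · intro c b
    exact fs' hA _ _ (hu c) _ b
  · intro c a
    exact hg' _ _ (hu c) _ _ (hw2 c) h hh a
  · intro c d a ha b hb
    have htc : ∀ c : C, t ^ (k c) ∈ Nt F N.ι i (θ c) := by
      intro c
      have := htk (k c)
      rwa [hθk] at this
    obtain ⟨y, hy⟩ := hdec c a ha
    obtain ⟨z, hz⟩ := hdec d b hb
    set x := s (be β (g ^ (k c)) (w' c) a) with hx
    set x' := s (be β (g ^ (k d)) (w' d) b) with hx'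
    have hxf : x ∈ Nt F N.ι i 1 := hsf _
    have hxf' : x' ∈ Nt F N.ι i 1 := hsf _
    have hθ : θ d * θ c = θ (c * d) := by rw [← map_mul, mul_comm]
    obtain ⟨p, hp⟩ := hcom (k c) x' hxf'
    rw [hθk] at hp
    obtain ⟨q, hq⟩ := hmod2 (k c + k d) (c * d) (by rw [pow_add, hk, hk])
    have hxx : x * x' ∈ Nt F N.ι i 1 := by
      have := t2 _ _ _ _ hxf hxf'
      rwa [mul_one] at this
    have hxt : x * t ^ (k c) ∈ Nt F N.ι i (θ c) := by
      have := t2 _ _ _ _ hxf (htc c)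
      rwa [mul_one] at this
    -- the four pieces
    have e0 : a * b = x * x' * t ^ (k (c * d)) + (x * x') * (t ^ (k c + k d) - t ^ (k (c * d))) +
        x * (t ^ (k c) * x' - x' * t ^ (k c)) * t ^ (k d) +
        (x * t ^ (k c)) * Tr F N.ι i (θ d) z + Tr F N.ι i (θ c) y * b := by
      conv_lhs => rw [hy, add_mul, hz]
      rw [hz, pow_add]
      noncomm_ring
    have e1 : (x * x') * (t ^ (k c + k d) - t ^ (k (c * d))) =
        Tr F N.ι i (θ (c * d)) (x * x' * q) := by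
      rw [hq, t6 _ _ _ _ hxx, mul_one]
    have e2 : x * (t ^ (k c) * x' - x' * t ^ (k c)) * t ^ (k d) =
        Tr F N.ι i (θ (c * d)) (x * p * t ^ (k d)) := by
      rw [hp, t6 _ _ _ _ hxf, mul_one, t7 _ _ _ _ (htc d), hθ]
    have e3 : (x * t ^ (k c)) * Tr F N.ι i (θ d) z =
        Tr F N.ι i (θ (c * d)) (x * t ^ (k c) * z) := by
      rw [t6 _ _ _ _ hxt, hθ]
    have e4 : Tr F N.ι i (θ c) y * b = Tr F N.ι i (θ (c * d)) (y * b) := by
      rw [t7 _ _ _ _ hb, hθ]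
    show be β (g ^ (k (c * d))) (w' (c * d)) (a * b) = _
    rw [e0, e1, e2, e3, e4, map_add, map_add, map_add, map_add, hkill, hkill, hkill, hkill,
      hval _ _ hxx, hA.mul x ((hfix x).1 hxf) x' ((hfix x').1 hxf'), hx, hx', hA.bs, hA.bs]
    simp
  · show be β (g ^ (k 1)) (w' 1) 1 = 1
    have h1 := hw1 1
    rw [hk1 1 rfl, pow_zero, pow_zero, one_mul, hβ1, one_mul] at h1
    rw [be_ap, hgi, hk1 1 rfl, pow_zero, one_mul, hβ1, one_mul, h1]
  · intro v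
    show be β (g ^ (k 1)) (w' 1) (N.ι (i v)) = 1
    have h1 := hw1 1
    rw [hk1 1 rfl, pow_zero, pow_zero, one_mul, hβ1, one_mul] at h1
    rw [be_ap, hgi, hk1 1 rfl, pow_zero, mul_one, h1, mul_one, hA.cov]
    -- `B.ι (i v) = 1`
    obtain ⟨r, hr⟩ := cen hB (B.ι (i v)) (by
      intro b
      have h2 : cj F B.ι (i v) b = b := hA.tr (i v) ⟨v, rfl⟩ b
      rw [cj_ap] at h2
      calc B.ι (i v) * b = B.ι (i v) * (b * B.ι (i v)⁻¹) * B.ι (i v) := by
            rw [mul_assoc, mul_assoc, al_inv', mul_one]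
        _ = b * B.ι (i v) := by rw [h2])
    have hv : v ^ ℓ = 1 := by
      rw [← hc]
      exact pow_card_eq_one'
    have h3 : algebraMap F B.A (r ^ ℓ) = 1 := by
      rw [map_pow, ← hr, ← map_pow, ← map_pow, hv, map_one, map_one]
    obtain ⟨n, hn, ⟨e⟩⟩ := hB
    haveI : Nonempty (Fin n) := ⟨⟨0, hn⟩⟩
    haveI : Nontrivial B.A := e.toEquiv.nontrivial
    have h4 : r ^ ℓ = 1 := by
      apply (algebraMap F B.A).injective
      rw [h3, map_one]
    have h5 : (r - 1) ^ ℓ = 0 := by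
      rw [sub_pow_char, h4, one_pow, sub_self]
    have h6 : r = 1 := sub_eq_zero.1 (pow_eq_zero_iff (Fact.out : ℓ.Prime).ne_zero |>.1 h5)
    rw [hr, h6, map_one]

end Pool.Agent.PFE.H17
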