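import Pool.Agent.PFE.StmtsE2c

/-! Squad PFE, row YFB (helper17): the free part of the frame. -/

set_option autoImplicit false

open scoped BigOperators

noncomputable section

namespace Pool.Agent.PFE.H17

open MulOpposite
open Pool.Agent.PFE Pool.Agent.PFD.D2
open Pool.Agent.PFC (tw)
open Pool.Agent.PFC.B1 (BiM)
open Pool.Agent.PFD.D2b (wrp)

section cas

variable {F V1 A : Type} [Field F] [CommGroup V1] [Fintype V1] {l : ℕ} {Y : Y1 F V1 l}
  {z : MonoidAlgebra F V1} [Ring A] [Algebra F A]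

/-- left bilinear map -/
def bl (J : MonoidAlgebra F V1 →ₐ[F] A) (d : A →ₗ[F] F) (p q : A) :
    MonoidAlgebra F V1 →ₗ[F] MonoidAlgebra F V1 →ₗ[F] A :=
  LinearMap.mk₂ F (fun a b => d (J b * p) • (J a * q))
    (fun a a' b => by simp only [map_add, add_mul, smul_add])
    (fun r a b => by simp only [map_smul, smul_mul_assoc, smul_comm r])
    (fun a b b' => by simp only [map_add, add_mul, add_smul])
    (fun r a b => by simp only [map_smul, smul_mul_assoc, smul_eq_mul, mul_smul])

/-- right bilinear map -/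
def br (J : MonoidAlgebra F V1 →ₐ[F] A) (d : A →ₗ[F] F) (p q : A) :
    MonoidAlgebra F V1 →ₗ[F] MonoidAlgebra F V1 →ₗ[F] A :=
  LinearMap.mk₂ F (fun a b => d (p * J b) • (q * J a))
    (fun a a' b => by simp only [map_add, mul_add, smul_add])
    (fun r a b => by simp only [map_smul, mul_smul_comm, smul_comm r])
    (fun a b b' => by simp only [map_add, mul_add, add_smul])
    (fun r a b => by simp only [map_smul, mul_smul_comm, smul_eq_mul, mul_smul])

theorem cas2 (hz : ∀ (M : Type) [AddCommGroup M] [Module F M]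
        (β : MonoidAlgebra F V1 →ₗ[F] MonoidAlgebra F V1 →ₗ[F] M),
        ∑ v : V1, β (MonoidAlgebra.of F V1 v) (MonoidAlgebra.of F V1 v⁻¹) =
          ∑ k ∈ Finset.range l, β (Y.y ^ k) (z * Y.y ^ (l - 1 - k)))
    (J : MonoidAlgebra F V1 →ₐ[F] A) (d : A →ₗ[F] F) (b n : A) :
    ∑ v : V1, ∑ v' : V1, d (J (MonoidAlgebra.of F V1 v⁻¹) * n * J (MonoidAlgebra.of F V1 v')) •
        (J (MonoidAlgebra.of F V1 v) * b * J (MonoidAlgebra.of F V1 v'⁻¹)) =
      ∑ k ∈ Finset.range l, ∑ m ∈ Finset.range l,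
        d (J (z * Y.y ^ (l - 1 - k)) * n * J (z * Y.y ^ (l - 1 - m))) •
          (J (Y.y ^ k) * b * J (Y.y ^ m)) := by
  rw [Finset.sum_comm]
  have h1 : ∀ v' : V1, ∑ v : V1,
      d (J (MonoidAlgebra.of F V1 v⁻¹) * n * J (MonoidAlgebra.of F V1 v')) •
        (J (MonoidAlgebra.of F V1 v) * b * J (MonoidAlgebra.of F V1 v'⁻¹)) =
      ∑ k ∈ Finset.range l, d (J (z * Y.y ^ (l - 1 - k)) * n * J (MonoidAlgebra.of F V1 v')) •
        (J (Y.y ^ k) * b * J (MonoidAlgebra.of F V1 v'⁻¹)) := by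
    intro v'
    have := hz A (bl J d (n * J (MonoidAlgebra.of F V1 v'))
      (b * J (MonoidAlgebra.of F V1 v'⁻¹)))
    simp only [bl, LinearMap.mk₂_apply, ← mul_assoc] at this
    exact this
  rw [Finset.sum_congr rfl fun v' _ => h1 v', Finset.sum_comm]
  refine Finset.sum_congr rfl fun k _ => ?_
  have h2 := hz A (br J d (J (z * Y.y ^ (l - 1 - k)) * n) (J (Y.y ^ k) * b))
  simp only [br, LinearMap.mk₂_apply] at h2
  rw [← h2]
  refine Fintype.sum_equiv (Equiv.inv V1) _ _ fun v' => ?_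
  rw [Equiv.inv_apply, inv_inv]

end cas

/-- the restricted action -/
@[reducible] def actT {V Om : Type} [CommGroup V] [MulAction (V × V) Om] (W : Subgroup V) (Θ : Set Om)
    (h : ∀ ω ∈ Θ, ∀ b : V × V, b.1 ∈ W → b.2 ∈ W → b • ω ∈ Θ) :
    MulAction (W × W) {ω : Om // ω ∈ Θ} where
  smul w o := ⟨((w.1 : V), (w.2 : V)) • o.1, h _ o.2 _ w.1.2 w.2.2⟩
  one_smul o := by
    apply Subtype.ext
    show (((1 : W) : V), ((1 : W) : V)) • o.1 = o.1
    exact one_smul (V × V) o.1
  mul_smul a b o := by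
    apply Subtype.ext
    show (((a.1 * b.1 : W) : V), ((a.2 * b.2 : W) : V)) • o.1 =
      ((a.1 : V), (a.2 : V)) • ((b.1 : V), (b.2 : V)) • o.1
    rw [← mul_smul]
    rfl

/-- the trivial action on the empty type -/
@[reducible] def actE (G : Type) [Monoid G] : MulAction G Empty where
  smul _ x := x
  one_smul x := x.elim
  mul_smul _ _ x := x.elim

theorem tw_mem {V : Type} [CommGroup V] (φ : V →* V) (R : Subgroup V) (a : V × V) :
    a ∈ tw φ R ↔ a.2 ∈ R ∧ a.1 = φ a.2 := by
  constructor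
  · rintro ⟨u, hu, rfl⟩
    exact ⟨hu, rfl⟩
  · rintro ⟨h1, h2⟩
    exact ⟨a.2, h1, Prod.ext h2.symm rfl⟩

theorem yfb (horb : OrbStmt) (hcaz : CazStmt) : YfbStmt := by
  intro F V E V1 C A Om _ _ _ _ _ _ _ _ _ _ _ φ i W _ l Y G θ j b d hl hi hPW hPW' hW hGy hGw hb hd
    hst
  classical
  obtain ⟨z, -, -, hz⟩ := hcaz F V1 l Y hl
  -- the stabiliser in `(P × P)(W × W)`
  have hstab : ∀ (ω : Om) (a b : V × V), a.1 ∈ i.range → a.2 ∈ i.range → b.1 ∈ W → b.2 ∈ W →
      (a * b) • ω = ω → a = 1 := by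
    intro ω a b ha1 ha2 hb1 hb2 hab
    obtain ⟨e, R, hR, hs⟩ := hst ω
    have h1 : a * b ∈ MulAction.stabilizer (V × V) ω := hab
    rw [hs, tw_mem] at h1
    obtain ⟨h2, h3⟩ := h1
    have h4 : a.2 ∈ W := by
      have h5 : a.2 * b.2 ∈ W := hR h2
      exact (Subgroup.mul_mem_cancel_right W hb2).1 h5
    have h6 : a.2 = 1 := by
      have : a.2 ∈ i.range ⊓ W := ⟨ha2, h4⟩
      rwa [hPW, Subgroup.mem_bot] at this
    have h7 : a.1 ∈ W := by
      have h8 : a.1 * b.1 ∈ W := by
        have : (a * b).1 ∈ W := by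
          rw [h3]
          exact hW e _ (hR h2)
        exact this
      exact (Subgroup.mul_mem_cancel_right W hb1).1 h8
    have h9 : a.1 = 1 := by
      have : a.1 ∈ i.range ⊓ W := ⟨ha1, h7⟩
      rwa [hPW, Subgroup.mem_bot] at this
    exact Prod.ext h9 h6
  obtain ⟨Θ, o1, o2, o3⟩ := horb V Om i.range W hPW' (by
    intro ω a b ha1 ha2 hb1 hb2 hab
    rw [hstab ω a b ha1 ha2 hb1 hb2 hab, one_smul])
  letI : MulAction (W × W) {ω : Om // ω ∈ Θ} := actT W Θ o1
  letI : MulAction (W × W) Empty := actE _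
  -- the map
  let J : MonoidAlgebra F V1 →ₐ[F] A := j.comp (il (MonoidAlgebra.of F V) i)
  have hil : ∀ v, il (MonoidAlgebra.of F V) i (MonoidAlgebra.of F V1 v) =
      MonoidAlgebra.of F V (i v) := by
    intro v
    unfold il
    rw [MonoidAlgebra.lift_of]
    rfl
  have hJ : ∀ v, J (MonoidAlgebra.of F V1 v) = j (MonoidAlgebra.of F V (i v)) := by
    intro v
    show j (il (MonoidAlgebra.of F V) i (MonoidAlgebra.of F V1 v)) = _
    rw [hil]
  have hJy : ∀ k, j (G.y ^ k) = J (Y.y ^ k) := by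
    intro k
    rw [hGy, map_pow, map_pow]
    rfl
  let m : (V1 × V1) × {ω : Om // ω ∈ Θ} → Om := fun p => (i p.1.1, i p.1.2) • p.2.1
  have hm : Function.Bijective m := by
    constructor
    · rintro ⟨⟨v, v'⟩, o⟩ ⟨⟨u, u'⟩, o'⟩ h
      have h1 : (i v, i v') • o.1 = (i u, i u') • o'.1 := h
      have h2 : ((i (u⁻¹ * v), i (u'⁻¹ * v')) : V × V) • o.1 = o'.1 := by
        have : ((i (u⁻¹ * v), i (u'⁻¹ * v')) : V × V) = (i u, i u')⁻¹ * (i v, i v') := by
          rw [Prod.inv_mk, Prod.mk_mul_mk, map_mul, map_mul, map_inv, map_inv]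
        rw [this, mul_smul, h1, inv_smul_smul]
      have h3 := o3 o.1 o.2 (i (u⁻¹ * v), i (u'⁻¹ * v')) ⟨_, rfl⟩ ⟨_, rfl⟩ (by rw [h2]; exact o'.2)
      have h4 := hstab o.1 (i (u⁻¹ * v), i (u'⁻¹ * v')) 1 ⟨_, rfl⟩ ⟨_, rfl⟩ W.one_mem W.one_mem
        (by rw [mul_one, h3])
      rw [h2] at h3
      have h5 : i (u⁻¹ * v) = 1 := congrArg Prod.fst h4
      have h6 : i (u'⁻¹ * v') = 1 := congrArg Prod.snd h4
      have h7 : v = u := by
        have := hi (h5.trans (map_one i).symm)
        rwa [inv_mul_eq_one, eq_comm] at this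
      have h8 : v' = u' := by
        have := hi (h6.trans (map_one i).symm)
        rwa [inv_mul_eq_one, eq_comm] at this
      rw [h7, h8, Subtype.ext h3.symm]
    · intro ω
      obtain ⟨a, ⟨v, hv⟩, ⟨v', hv'⟩, ha⟩ := o2 ω
      refine ⟨((v⁻¹, v'⁻¹), ⟨a • ω, ha⟩), ?_⟩
      show ((i v⁻¹, i v'⁻¹) : V × V) • a • ω = ω
      have : ((i v⁻¹, i v'⁻¹) : V × V) = a⁻¹ := by
        rw [map_inv, map_inv, hv, hv']
        rfl
      rw [this, inv_smul_smul]
  -- the main identity
  have hmain : ∀ n : A, ∑ ω, d ω n • b ω = ∑ o : {ω : Om // ω ∈ Θ},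
      ∑ k ∈ Finset.range l, ∑ r ∈ Finset.range l,
        d o.1 (J (z * Y.y ^ (l - 1 - k)) * n * J (z * Y.y ^ (l - 1 - r))) •
          (J (Y.y ^ k) * b o.1 * J (Y.y ^ r)) := by
    intro n
    rw [← hm.sum_comp (fun ω => d ω n • b ω), Fintype.sum_prod_type_right]
    refine Finset.sum_congr rfl fun o _ => ?_
    rw [← cas2 hz J (d o.1) (b o.1) n, Fintype.sum_prod_type]
    refine Finset.sum_congr rfl fun v _ => Finset.sum_congr rfl fun v' _ => ?_
    have h1 : b (m ((v, v'), o)) = J (MonoidAlgebra.of F V1 v) * b o.1 *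
        J (MonoidAlgebra.of F V1 v'⁻¹) := by
      rw [hJ, hJ, map_inv]
      exact hb (i v, i v') o.1
    have h2 : d (m ((v, v'), o)) n = d o.1 (J (MonoidAlgebra.of F V1 v⁻¹) * n *
        J (MonoidAlgebra.of F V1 v')) := by
      rw [← hd (i v, i v') o.1]
      congr 1
      rw [← map_inv i, ← hJ, ← hJ]
      have e1 : J (MonoidAlgebra.of F V1 v) * J (MonoidAlgebra.of F V1 v⁻¹) = 1 := by
        rw [← map_mul, ← map_mul, mul_inv_cancel, map_one, map_one]
      have e2 : J (MonoidAlgebra.of F V1 v') * J (MonoidAlgebra.of F V1 v'⁻¹) = 1 := by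
        rw [← map_mul, ← map_mul, mul_inv_cancel, map_one, map_one]
      calc n = (J (MonoidAlgebra.of F V1 v) * J (MonoidAlgebra.of F V1 v⁻¹)) * n *
            (J (MonoidAlgebra.of F V1 v') * J (MonoidAlgebra.of F V1 v'⁻¹)) := by
              rw [e1, e2, one_mul, mul_one]
        _ = _ := by simp only [mul_assoc]
    rw [h1, h2]
  refine ⟨Empty, {ω : Om // ω ∈ Θ}, inferInstance, inferInstance, actE _, actT W Θ o1, ⟨?_⟩⟩
  let zV : MonoidAlgebra F V := il (MonoidAlgebra.of F V) i z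
  exact
    { deg := fun o => o.elim
      dg := fun _ o => o.elim
      fo := fun _ o => o.elim
      fo' := by
        intro w o h
        have h1 : (((1 : W) : V), (w : V)) • o.1 = o.1 := congrArg Subtype.val h
        obtain ⟨e, R, hR, hs⟩ := hst o.1
        have h2 : (((1 : W) : V), (w : V)) ∈ MulAction.stabilizer (V × V) o.1 := h1
        rw [hs, tw_mem] at h2
        have h3 : (1 : V) = φ e (w : V) := h2.2
        have h4 : (w : V) = 1 := by
          apply (φ e).injective
          rw [← h3, map_one]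
        exact Subtype.ext h4
      g := fun o => o.elim
      gw := fun _ o => o.elim
      gy := fun o => o.elim
      c := fun o => o.elim
      cw := fun _ o => o.elim
      cy := fun o => o.elim
      h := fun o => b o.1
      hw := by
        intro w o
        show b (((w.1 : V), (w.2 : V)) • o.1) = j (G.om w.1) * (b o.1 * j (G.om w.2⁻¹))
        rw [hb, hGw, hGw, mul_assoc]
        rfl
      d := fun o => (d o.1).comp ((LinearMap.mulLeft F (j zV)).comp (LinearMap.mulRight F (j zV)))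
      dw := by
        intro w o n
        show d (((w.1 : V), (w.2 : V)) • o.1) (j zV * (j (G.om w.1) * (n * j (G.om w.2⁻¹)) * j zV)) =
          d o.1 (j zV * (n * j zV))
        rw [← hd ((w.1 : V), (w.2 : V)) o.1 (j zV * (n * j zV))]
        congr 1
        rw [hGw, hGw]
        have e1 : j zV * j (MonoidAlgebra.of F V (w.1 : V)) =
            j (MonoidAlgebra.of F V (w.1 : V)) * j zV := by
          rw [← map_mul, mul_comm, map_mul]
        have e2 : j (MonoidAlgebra.of F V ((w.2⁻¹ : W) : V)) * j zV =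
            j zV * j (MonoidAlgebra.of F V ((w.2⁻¹ : W) : V)) := by
          rw [← map_mul, mul_comm, map_mul]
        calc j zV * (j (MonoidAlgebra.of F V (w.1 : V)) *
              (n * j (MonoidAlgebra.of F V ((w.2⁻¹ : W) : V))) * j zV)
            = (j zV * j (MonoidAlgebra.of F V (w.1 : V))) * (n *
              (j (MonoidAlgebra.of F V ((w.2⁻¹ : W) : V)) * j zV)) := by simp only [mul_assoc]
          _ = _ := by
            rw [e1, e2]
            simp only [mul_assoc]
            rfl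
      fr := by
        intro n
        have h0 : (∑ ω, (d ω).smulRight (b ω)) n = ∑ ω, d ω n • b ω := by
          rw [LinearMap.sum_apply]
          rfl
        rw [h0, hmain n]
        rw [Finset.univ_eq_empty (α := Empty), Finset.sum_empty, zero_add]
        refine Finset.sum_congr rfl fun o _ => Finset.sum_congr rfl fun k _ =>
          Finset.sum_congr rfl fun r _ => ?_
        show d o.1 (j zV * (j (G.y ^ (l - 1 - k)) * (n * j (G.y ^ (l - 1 - r))) * j zV)) •
          (j (G.y ^ k) * (b o.1 * j (G.y ^ r))) = _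
        rw [hJy, hJy, hJy, hJy]
        have hzV : j zV = J z := rfl
        rw [hzV]
        congr 1
        · congr 1
          rw [map_mul J z, mul_comm z (Y.y ^ (l - 1 - r)), map_mul J _ z]
          simp only [mul_assoc]
        · rw [mul_assoc] }

end Pool.Agent.PFE.H17
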